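import Mathlib

namespace Pool.Agent.Results.MP_bcda77_nt.Half

open Finset Pointwise

lemma image_le (s : Finset (ℕ × ℕ)) (f : ℕ × ℕ → ℕ) : ∑ x ∈ s.image f, x ≤ ∑ a ∈ s, f a := by
  induction s using Finset.induction_on with
  | empty => simp
  | insert a s ha ih =>
    rw [Finset.image_insert, Finset.sum_insert ha]
    by_cases h : f a ∈ s.image f
    · rw [Finset.insert_eq_of_mem h]
      omega
    · rw [Finset.sum_insert h]
      omega

lemma sub_mul (k n : ℕ) :
    ∑ d ∈ (k * n).divisors, d ≤ (∑ d ∈ k.divisors, d) * ∑ d ∈ n.divisors, d := by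
  rw [Nat.divisors_mul, Finset.mul_def, Finset.sum_mul_sum, ← Finset.sum_product']
  exact image_le _ _

lemma sig_two (m : ℕ) : ∑ d ∈ (2 ^ m).divisors, d + 1 = 2 * 2 ^ m := by
  rw [Nat.sum_divisors_prime_pow Nat.prime_two]
  induction m with
  | zero => simp
  | succ m ih =>
    rw [Finset.sum_range_succ, pow_succ]
    omega

lemma almost : ∀ n k : ℕ, Odd n →
    IsLeast {k : ℕ | 1 ≤ k ∧ ∑ d ∈ k.divisors, d < 2 * k ∧
      2 * (k * n) ≤ ∑ d ∈ (k * n).divisors, d} k →
    ∑ d ∈ k.divisors, d + 1 = 2 * k := by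
  rintro n k hn ⟨⟨h1, h2, h3⟩, hmin⟩
  have a1 : 2 ^ Nat.log 2 k ≤ k := Nat.pow_log_le_self 2 (by omega)
  have a2 : k < 2 ^ (Nat.log 2 k + 1) := Nat.lt_pow_succ_log_self (by norm_num) k
  generalize Nat.log 2 k = m at a1 a2
  have hs := sig_two m
  rcases a1.eq_or_lt with h | h
  · rw [← h]
    exact hs
  · by_contra hc
    have hp : 1 ≤ 2 ^ m := Nat.one_le_two_pow
    have h4 : ∑ d ∈ (2 ^ m * n).divisors, d < 2 * (2 ^ m * n) := by
      by_contra h4
      have := hmin (a := 2 ^ m) ⟨hp, by omega, by omega⟩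
      omega
    have hcop : Nat.Coprime (2 ^ m) n :=
      Nat.Coprime.pow_left _ ((Nat.coprime_two_left).2 hn)
    rw [hcop.sum_divisors_mul] at h4
    have h5 := h3.trans (sub_mul k n)
    rw [pow_succ] at a2
    generalize ∑ d ∈ (2 ^ m).divisors, d = A at *
    generalize ∑ d ∈ k.divisors, d = B at *
    generalize ∑ d ∈ n.divisors, d = C at *
    generalize 2 ^ m = T at *
    obtain ⟨j, rfl⟩ : ∃ j, k = j + 1 := ⟨k - 1, by omega⟩
    have h6 : B ≤ 2 * j := by omega
    have h7 : (j + 1) * n ≤ j * C := by nlinarith [Nat.mul_le_mul_right C h6]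
    have h8 : A * C < (A + 1) * n := by rw [hs]; linarith
    have h9 : j ≤ A := by omega
    have h10 : n < C ∨ C ≤ n := by omega
    rcases h10 with h10 | h10
    · obtain ⟨e, rfl⟩ : ∃ e, C = n + e := ⟨C - n, by omega⟩
      have b1 : n ≤ j * e := by nlinarith
      have b2 : A * e < n := by nlinarith
      nlinarith [Nat.mul_le_mul_right e h9]
    · have b0 : 0 < n := hn.pos
      nlinarith [Nat.mul_le_mul_left j h10]

lemma six (t : ℕ) (ht : t ≠ 0) : 2 * (6 * t) ≤ ∑ d ∈ (6 * t).divisors, d := by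
  have hsub : ({t, 2 * t, 3 * t, 6 * t} : Finset ℕ) ⊆ (6 * t).divisors := by
    intro x hx
    simp only [Finset.mem_insert, Finset.mem_singleton] at hx
    rw [Nat.mem_divisors]
    refine ⟨?_, by omega⟩
    rcases hx with rfl | rfl | rfl | rfl
    · exact ⟨6, by ring⟩
    · exact ⟨3, by ring⟩
    · exact ⟨2, by ring⟩
    · exact dvd_rfl
  have h := Finset.sum_le_sum_of_subset (f := fun d : ℕ => d) hsub
  rw [Finset.sum_insert (by simp; omega), Finset.sum_insert (by simp; omega),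
    Finset.sum_pair (by omega)] at h
  omega

theorem result : ∀ m p : ℕ, 1 ≤ m → IsLeast {q : ℕ | q.Prime ∧ 2 ^ m < q} p →
    (∀ n : ℕ, 2 ≤ n → n < p →
      ¬ IsLeast {k : ℕ | 1 ≤ k ∧ ∑ d ∈ k.divisors, d < 2 * k ∧
        2 * (k * n) ≤ ∑ d ∈ (k * n).divisors, d} (2 ^ m)) ∧
    (∀ k : ℕ, IsLeast {k : ℕ | 1 ≤ k ∧ ∑ d ∈ k.divisors, d < 2 * k ∧
        2 * (k * p) ≤ ∑ d ∈ (k * p).divisors, d} k →
      2 ^ (m - 1) < k ∧ k ≤ 2 ^ m ∧ ∑ d ∈ k.divisors, d + 1 = 2 * k) := by
  rintro m p hm ⟨⟨hp, hp2⟩, hmin⟩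
  obtain ⟨m, rfl⟩ : ∃ t, m = t + 1 := ⟨m - 1, by omega⟩
  have hT : 1 ≤ 2 ^ m := Nat.one_le_two_pow
  have hpow : 2 ^ (m + 1) = 2 * 2 ^ m := by ring
  refine ⟨?_, ?_⟩
  · rintro n hn hnp ⟨⟨h1, h2, h3⟩, hl⟩
    rcases Nat.even_or_odd' n with ⟨t, rfl | ht⟩
    · rcases Nat.eq_zero_or_pos m with rfl | hm0
      · have := hmin (a := 3) ⟨Nat.prime_three, by norm_num⟩
        obtain rfl : t = 1 := by omega
        revert h3
        decide
      · have h6 := six t (by omega)
        have h4 := hl (a := 3) ⟨by norm_num, by decide, by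
          rw [show 3 * (2 * t) = 6 * t by ring]; exact h6⟩
        have : 2 ^ 1 ≤ 2 ^ m := Nat.pow_le_pow_right (by norm_num) hm0
        omega
    · have hodd : Odd n := ⟨t, ht⟩
      have hq := Nat.minFac_prime (show n ≠ 1 by omega)
      have hqn := Nat.minFac_le (show 0 < n by omega)
      obtain ⟨u, hu⟩ := Nat.minFac_dvd n
      generalize n.minFac = q at hq hqn hu
      have hq2 := hq.two_le
      have hle : q ≤ 2 ^ (m + 1) := by
        by_contra hc
        have := hmin (a := q) ⟨hq, by omega⟩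
        omega
      have hqo : q % 2 = 1 := by
        have : Odd q := hodd.of_dvd_nat ⟨u, hu⟩
        exact Nat.odd_iff.1 this
      have hu0 : 0 < u := Nat.pos_of_ne_zero (by rintro rfl; omega)
      have hun : u < n := by nlinarith
      have hsub : ({u, n} : Finset ℕ) ⊆ n.divisors := by
        intro x hx
        simp only [Finset.mem_insert, Finset.mem_singleton] at hx
        rw [Nat.mem_divisors]
        refine ⟨?_, by omega⟩
        rcases hx with rfl | rfl
        · exact ⟨q, by rw [hu]; ring⟩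
        · exact dvd_rfl
      have h5 := Finset.sum_le_sum_of_subset (f := fun d : ℕ => d) hsub
      rw [Finset.sum_pair hun.ne] at h5
      have hs := sig_two m
      have hcop : Nat.Coprime (2 ^ m) n :=
        Nat.Coprime.pow_left _ ((Nat.coprime_two_left).2 hodd)
      have h7 : 2 * (2 ^ m * n) ≤ ∑ d ∈ (2 ^ m * n).divisors, d := by
        rw [hcop.sum_divisors_mul, ← mul_assoc, ← hs]
        have hqA : q ≤ ∑ d ∈ (2 ^ m).divisors, d := by omega
        generalize ∑ d ∈ (2 ^ m).divisors, d = A at *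
        generalize ∑ d ∈ n.divisors, d = C at *
        nlinarith [Nat.mul_le_mul_left A h5, Nat.mul_le_mul_right u hqA]
      have := hl (a := 2 ^ m) ⟨hT, by omega, h7⟩
      omega
  · intro k hk
    have hodd : Odd p := hp.odd_of_ne_two (by omega)
    have hA := almost p k hodd hk
    obtain ⟨⟨h1, h2, h3⟩, hl⟩ := hk
    have hsp : ∑ d ∈ p.divisors, d = p + 1 := hp.sum_divisors
    obtain ⟨q, hq, hq1, hq2⟩ := Nat.exists_prime_lt_and_le_two_mul (2 ^ (m + 1)) (by omega)
    have hpq := hmin (a := q) ⟨hq, hq1⟩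
    have hs := sig_two (m + 1)
    have hcop : Nat.Coprime (2 ^ (m + 1)) p :=
      Nat.Coprime.pow_left _ ((Nat.coprime_two_left).2 hodd)
    have hpo := Nat.odd_iff.1 hodd
    have h7 : 2 * (2 ^ (m + 1) * p) ≤ ∑ d ∈ (2 ^ (m + 1) * p).divisors, d := by
      rw [hcop.sum_divisors_mul, ← mul_assoc, ← hs, hsp]
      have hqA : p ≤ ∑ d ∈ (2 ^ (m + 1)).divisors, d := by omega
      generalize ∑ d ∈ (2 ^ (m + 1)).divisors, d = A at *
      nlinarith
    have h8 := hl (a := 2 ^ (m + 1)) ⟨by omega, by omega, h7⟩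
    have h9 := h3.trans (sub_mul k p)
    rw [hsp, ← mul_assoc, ← hA] at h9
    have h10 : p ≤ ∑ d ∈ k.divisors, d := by nlinarith
    refine ⟨?_, h8, hA⟩
    rw [Nat.add_sub_cancel]
    omega

end Pool.Agent.Results.MP_bcda77_nt.Half
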